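import Mathlib

/-!
# Conway's permutation `T`
-/

namespace Pool.Agent.MP_9e8697_nt

/-- Conway's map: `T (2 n) = 3 n`, `T (4 n + 1) = 3 n + 1`, `T (4 n - 1) = 3 n - 1`. -/
def T (x : ℕ) : ℕ :=
  if x % 2 = 0 then 3 * (x / 2)
  else if x % 4 = 1 then 3 * (x / 4) + 1
  else 3 * ((x + 1) / 4) - 1

/-- The distance from `p * log₂ 3` to the nearest integer. -/
noncomputable def dist3 (p : ℕ) : ℝ :=
  |(p : ℝ) * Real.logb 2 3 - round ((p : ℝ) * Real.logb 2 3)|

/-- The number of strict local minima of the cycle of the periodic point `x`. -/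
noncomputable def minima (x : ℕ) : ℕ :=
  ((Finset.range (Function.minimalPeriod T x)).filter
    (fun i => T^[i + 1] x < T^[i] x ∧ T^[i + 1] x < T^[i + 2] x)).card

/-- The number of odd elements among the first `p` iterates. -/
def odds (x p : ℕ) : ℕ := ((Finset.range p).filter (fun i => T^[i] x % 2 = 1)).card

/-- `p log 3 - (p + o) log 2` -/
noncomputable def Lam (p o : ℕ) : ℝ := (p : ℝ) * Real.log 3 - ((p : ℝ) + o) * Real.log 2

theorem two_mul_T {x : ℕ} (h : x % 2 = 0) : 2 * T x = 3 * x := by
  unfold T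
  rw [if_pos h]
  omega

theorem four_mul_T_of_one {x : ℕ} (h : x % 4 = 1) : 4 * T x = 3 * x + 1 := by
  unfold T
  rw [if_neg (by omega), if_pos h]
  omega

theorem four_mul_T_of_three {x : ℕ} (h : x % 4 = 3) : 4 * T x + 1 = 3 * x := by
  unfold T
  rw [if_neg (by omega), if_neg (by omega)]
  omega

theorem T_zero : T 0 = 0 := by decide

theorem T_one : T 1 = 1 := by decide

theorem T_pos {x : ℕ} (h : 0 < x) : 0 < T x := by
  have h0 : x % 4 = 0 ∨ x % 4 = 1 ∨ x % 4 = 2 ∨ x % 4 = 3 := by omega
  rcases h0 with h0 | h0 | h0 | h0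
  · have := two_mul_T (x := x) (by omega); omega
  · have := four_mul_T_of_one h0; omega
  · have := two_mul_T (x := x) (by omega); omega
  · have := four_mul_T_of_three h0; omega

theorem T_injective : Function.Injective T := by
  intro x y h
  have hx : x % 4 = 0 ∨ x % 4 = 1 ∨ x % 4 = 2 ∨ x % 4 = 3 := by omega
  have hy : y % 4 = 0 ∨ y % 4 = 1 ∨ y % 4 = 2 ∨ y % 4 = 3 := by omega
  rcases hx with hx | hx | hx | hx <;> rcases hy with hy | hy | hy | hy <;>
  first
  | (have h1 := two_mul_T (x := x) (by omega); have h2 := two_mul_T (x := y) (by omega); omega)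
  | (have h1 := four_mul_T_of_one hx; have h2 := two_mul_T (x := y) (by omega); omega)
  | (have h1 := two_mul_T (x := x) (by omega); have h2 := four_mul_T_of_one hy; omega)
  | (have h1 := four_mul_T_of_one hx; have h2 := four_mul_T_of_one hy; omega)
  | (have h1 := four_mul_T_of_three hx; have h2 := two_mul_T (x := y) (by omega); omega)
  | (have h1 := two_mul_T (x := x) (by omega); have h2 := four_mul_T_of_three hy; omega)
  | (have h1 := four_mul_T_of_three hx; have h2 := four_mul_T_of_three hy; omega)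
  | (have h1 := four_mul_T_of_three hx; have h2 := four_mul_T_of_one hy; omega)
  | (have h1 := four_mul_T_of_one hx; have h2 := four_mul_T_of_three hy; omega)

theorem iterate_pos {x : ℕ} (h : 0 < x) (k : ℕ) : 0 < T^[k] x := by
  induction k with
  | zero => exact h
  | succ k ih => rw [Function.iterate_succ_apply']; exact T_pos ih

theorem T_lt_of_odd {x : ℕ} (h : x % 2 = 1) (h2 : 2 ≤ x) : T x < x := by
  have h0 : x % 4 = 1 ∨ x % 4 = 3 := by omega
  rcases h0 with h0 | h0
  · have := four_mul_T_of_one h0; omega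
  · have := four_mul_T_of_three h0; omega

theorem lt_T_of_even {x : ℕ} (h : x % 2 = 0) (h2 : 0 < x) : x < T x := by
  have := two_mul_T h; omega

theorem two_le_T {x : ℕ} (h : 2 ≤ x) : 2 ≤ T x := by
  have h0 : x % 4 = 0 ∨ x % 4 = 1 ∨ x % 4 = 2 ∨ x % 4 = 3 := by omega
  rcases h0 with h0 | h0 | h0 | h0
  · have := two_mul_T (x := x) (by omega); omega
  · have := four_mul_T_of_one h0; omega
  · have := two_mul_T (x := x) (by omega); omega
  · have := four_mul_T_of_three h0; omega

theorem two_le_iterate {x : ℕ} (h : 2 ≤ x) (k : ℕ) : 2 ≤ T^[k] x := by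
  induction k with
  | zero => exact h
  | succ k ih => rw [Function.iterate_succ_apply']; exact two_le_T ih

end Pool.Agent.MP_9e8697_nt
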