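import Pool.Agent.Lib.MP_9e8697_nt.Mg.G003
import Pool.Agent.Lib.MP_9e8697_nt.Mg.G002

/-!
# Cycles with at most 12 local minima and a smallest element `≥ 6002` are long
-/

open Function

namespace Pool.Agent.MP_9e8697_nt

private theorem LO_gap : (2 / 1000 : ℝ) ≤ 53 * Real.log 3 - 84 * Real.log 2 := by
  have h1 : (2 : ℝ) ^ 84 * (1000 / 998) ≤ 3 ^ 53 := by norm_num
  have h2 := Real.log_le_log (by positivity) h1
  rw [Real.log_mul (by positivity) (by norm_num), Real.log_pow, Real.log_pow] at h2
  have h3 : 1 - (1000 / 998 : ℝ)⁻¹ ≤ Real.log (1000 / 998) :=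
    Real.one_sub_inv_le_log_of_pos (by norm_num)
  push_cast at h2
  norm_num at h3
  linarith

private theorem LO_lt : 306 * Real.log 3 < 485 * Real.log 2 := by
  have h1 : (3 : ℝ) ^ 306 < 2 ^ 485 := by
    have h : (3 : ℕ) ^ 306 < 2 ^ 485 := by decide +kernel
    exact_mod_cast h
  have h2 := Real.log_lt_log (by positivity) h1
  rw [Real.log_pow, Real.log_pow] at h2
  exact_mod_cast h2

theorem low_d {p B : ℕ} (hp : 0 < p) (h : p < 306) :
    2 / 1000 ≤ |(p : ℝ) * Real.log 3 - B * Real.log 2| := by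
  have h1 := LO_gap
  have h2 := LO_lt
  have h4 := best_approx (α := Real.log 3) (β := Real.log 2) (q := 53) (b := 84)
    (q' := 306) (b' := 485) (by norm_num) (by norm_num) (by norm_num) (by
      push_cast
      exact mul_neg_of_pos_of_neg (by linarith) (by linarith)) (p := (p : ℤ)) (B := (B : ℤ))
    (by exact_mod_cast hp) (by exact_mod_cast h)
  rw [Int.cast_natCast, Int.cast_natCast] at h4
  refine le_trans ?_ h4
  push_cast
  exact h1.trans (le_abs_self _)

theorem period_large {x : ℕ} (hx : 6002 ≤ x) (hp : 0 < minimalPeriod T x)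
    (hmin : ∀ k, x ≤ T^[k] x) (hM : minima x ≤ 12) : 306 ≤ minimalPeriod T x := by
  by_contra hcon
  have h1 := low_d hp (not_le.1 hcon) (B := minimalPeriod T x + odds x (minimalPeriod T x))
  have h2 := abs_Lam_le_minima (by omega : 2 ≤ x) hp hmin
  have h3 : |(minimalPeriod T x : ℝ) * Real.log 3 -
      ((minimalPeriod T x + odds x (minimalPeriod T x) : ℕ) : ℝ) * Real.log 2| =
      |Lam (minimalPeriod T x) (odds x (minimalPeriod T x))| := by
    unfold Lam
    push_cast
    rfl
  rw [h3] at h1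
  have h4 := h1.trans h2
  have h5 : (6002 : ℝ) ≤ x := by exact_mod_cast hx
  have h6 : (minima x : ℝ) ≤ 12 := by exact_mod_cast hM
  rw [le_div_iff₀ (by linarith)] at h4
  linarith

theorem cnt_mono' (x : ℕ) {s t : ℕ} (h : s ≤ t) : cnt x s ≤ cnt x t := by
  unfold cnt
  exact Finset.card_le_card (Finset.filter_subset_filter _ (Finset.range_mono h))

/-- The packed check excludes a smallest element. -/
theorem simd_false {n a s : ℕ} (h : simd n 86 a s = true)
    (hb : (a + s * n) * 3 ^ 86 ≤ 2 ^ 86 * 2 ^ 73) {i : ℕ} (hi : i < n) (ha : 6002 ≤ a + s * i)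
    (hp : 0 < minimalPeriod T (a + s * i)) (hmin : ∀ k, a + s * i ≤ T^[k] (a + s * i))
    (hM : minima (a + s * i) ≤ 12) : False := by
  have h1 := simd_sound h hb (by norm_num) hi hmin
  have h2 := period_large ha hp hmin hM
  have h3 := cnt_mono' (a + s * i) (by omega : 86 ≤ minimalPeriod T (a + s * i))
  rw [minima_eq (by omega)] at hM
  omega

end Pool.Agent.MP_9e8697_nt
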