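import Pool.Agent.Lib.MP_9e8697_nt.Defs

/-!
# The basic identity for a cycle
-/

namespace Pool.Agent.MP_9e8697_nt

/-- The error of one odd step: `4 T x = 3 x ± 1`, and `- log (1 - t) ≤ t / (1 - t)`,
`log (1 + t) ≤ t` with `t = 1 / (3 x)`; note `t / (1 - t) = 1 / (3 x - 1)`. -/
theorem abs_log_odd {x : ℕ} (h : x % 2 = 1) :
    |Real.log (T x) - Real.log x - (Real.log 3 - 2 * Real.log 2)| ≤ 1 / (3 * (x : ℝ) - 1) := by
  have hx1 : 1 ≤ x := by omega
  have hxR : (1 : ℝ) ≤ x := by exact_mod_cast hx1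
  have hx0 : (0 : ℝ) < x := by linarith
  have hT0 : (0 : ℝ) < T x := by exact_mod_cast T_pos (by omega : 0 < x)
  have h3x : (0 : ℝ) < 3 * (x : ℝ) := by linarith
  have h3x1 : (0 : ℝ) < 3 * (x : ℝ) - 1 := by linarith
  have key : Real.log (T x) - Real.log x - (Real.log 3 - 2 * Real.log 2)
      = Real.log ((4 * (T x : ℝ)) / (3 * x)) := by
    rw [Real.log_div (by positivity) (by positivity), Real.log_mul (by norm_num) hT0.ne',
      Real.log_mul (by norm_num) hx0.ne']
    have h4 : Real.log 4 = 2 * Real.log 2 := by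
      rw [show (4 : ℝ) = 2 ^ 2 by norm_num, Real.log_pow]
      norm_num
    rw [h4]
    ring
  rw [key]
  have h0 : x % 4 = 1 ∨ x % 4 = 3 := by omega
  rcases h0 with h0 | h0
  · have h1 : (4 : ℝ) * T x = 3 * x + 1 := by exact_mod_cast four_mul_T_of_one h0
    rw [h1]
    have h2 : (1 : ℝ) ≤ (3 * x + 1) / (3 * x) := by
      rw [le_div_iff₀ h3x]
      linarith
    rw [abs_of_nonneg (Real.log_nonneg h2)]
    calc Real.log ((3 * (x : ℝ) + 1) / (3 * x)) ≤ (3 * (x : ℝ) + 1) / (3 * x) - 1 :=
          Real.log_le_sub_one_of_pos (by positivity)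
      _ = 1 / (3 * (x : ℝ)) := by
          field_simp
          ring
      _ ≤ 1 / (3 * (x : ℝ) - 1) := by
          apply one_div_le_one_div_of_le h3x1
          linarith
  · have h1 : (4 : ℝ) * T x + 1 = 3 * x := by exact_mod_cast four_mul_T_of_three h0
    have h1' : (4 : ℝ) * T x = 3 * x - 1 := by linarith
    rw [h1']
    have h2 : (3 * (x : ℝ) - 1) / (3 * x) ≤ 1 := by
      rw [div_le_one h3x]
      linarith
    rw [abs_of_nonpos (Real.log_nonpos (by positivity) h2), ← Real.log_inv, inv_div]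
    calc Real.log (3 * (x : ℝ) / (3 * x - 1)) ≤ 3 * (x : ℝ) / (3 * x - 1) - 1 :=
          Real.log_le_sub_one_of_pos (by positivity)
      _ = 1 / (3 * (x : ℝ) - 1) := by
          field_simp
          ring

theorem log_even {x : ℕ} (h : x % 2 = 0) (hx : 0 < x) :
    Real.log (T x) - Real.log x = Real.log 3 - Real.log 2 := by
  have hx0 : (0 : ℝ) < x := by exact_mod_cast hx
  have hT0 : (0 : ℝ) < T x := by exact_mod_cast T_pos hx
  have h1 : (2 : ℝ) * T x = 3 * x := by exact_mod_cast two_mul_T h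
  have h2 : Real.log ((2 : ℝ) * T x) = Real.log (3 * x) := by rw [h1]
  rw [Real.log_mul (by norm_num) hT0.ne', Real.log_mul (by norm_num) hx0.ne'] at h2
  linarith

/-- Proof: with `a i = log (T^[i + 1] x) - log (T^[i] x)` one has `∑_{i < p} a i = 0`
(`Finset.sum_range_sub`), `a i = log 3 - log 2` for even and
`a i = log 3 - 2 log 2 + e i` for odd `T^[i] x`, with `|e i| ≤ 1 / (3 T^[i] x - 1)`
(`abs_log_odd`). So `Lam p (odds x p) = - ∑ e i`. -/
theorem abs_Lam_le {x p : ℕ} (hx : 0 < x) (hp : T^[p] x = x) :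
    |Lam p (odds x p)| ≤ ∑ i ∈ (Finset.range p).filter (fun i => T^[i] x % 2 = 1),
      1 / (3 * (T^[i] x : ℝ) - 1) := by
  have htel : ∑ i ∈ Finset.range p, (Real.log (T^[i + 1] x) - Real.log (T^[i] x)) = 0 := by
    rw [Finset.sum_range_sub (fun i => Real.log ((T^[i] x : ℕ) : ℝ)) p]
    simp [hp]
  have hsplit := Finset.sum_filter_add_sum_filter_not (Finset.range p)
    (fun i => T^[i] x % 2 = 1) (fun i => Real.log (T^[i + 1] x) - Real.log (T^[i] x))
  rw [htel] at hsplit
  have hodd : ∑ i ∈ (Finset.range p).filter (fun i => T^[i] x % 2 = 1),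
      (Real.log (T^[i + 1] x) - Real.log (T^[i] x))
      = ∑ i ∈ (Finset.range p).filter (fun i => T^[i] x % 2 = 1),
        (Real.log (T (T^[i] x)) - Real.log (T^[i] x) - (Real.log 3 - 2 * Real.log 2))
        + (odds x p : ℝ) * (Real.log 3 - 2 * Real.log 2) := by
    rw [odds, ← nsmul_eq_mul, ← Finset.sum_const, ← Finset.sum_add_distrib]
    apply Finset.sum_congr rfl
    intro i _
    rw [Function.iterate_succ_apply']
    ring
  have heven : ∑ i ∈ (Finset.range p).filter (fun i => ¬ T^[i] x % 2 = 1),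
      (Real.log (T^[i + 1] x) - Real.log (T^[i] x))
      = ((p : ℝ) - odds x p) * (Real.log 3 - Real.log 2) := by
    have hcard : (((Finset.range p).filter (fun i => ¬ T^[i] x % 2 = 1)).card : ℝ)
        = (p : ℝ) - odds x p := by
      have h1 := Finset.card_filter_add_card_filter_not (s := Finset.range p)
        (fun i => T^[i] x % 2 = 1)
      rw [Finset.card_range] at h1
      have h2 : ((odds x p : ℕ) : ℝ)
          + (((Finset.range p).filter (fun i => ¬ T^[i] x % 2 = 1)).card : ℝ) = (p : ℝ) := by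
        exact_mod_cast h1
      linarith
    rw [← hcard, ← nsmul_eq_mul, ← Finset.sum_const]
    apply Finset.sum_congr rfl
    intro i hi
    rw [Function.iterate_succ_apply']
    have h2 : T^[i] x % 2 = 0 := by
      have := (Finset.mem_filter.mp hi).2
      omega
    exact log_even h2 (iterate_pos hx i)
  rw [hodd, heven] at hsplit
  have hLam : Lam p (odds x p) = - ∑ i ∈ (Finset.range p).filter (fun i => T^[i] x % 2 = 1),
        (Real.log (T (T^[i] x)) - Real.log (T^[i] x) - (Real.log 3 - 2 * Real.log 2)) := by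
    unfold Lam
    linarith
  rw [hLam, abs_neg]
  refine (Finset.abs_sum_le_sum_abs _ _).trans (Finset.sum_le_sum fun i hi => ?_)
  exact abs_log_odd (Finset.mem_filter.mp hi).2

end Pool.Agent.MP_9e8697_nt
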