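import Pool.Agent.Lib.MP_9e8697_nt.Mg.G003
import Pool.Agent.Lib.MP_9e8697_nt.Mg.G001
import Pool.Agent.Lib.MP_9e8697_nt.Long

/-!
# The cycles with at most 12 local minima
-/

open Function

namespace Pool.Agent.MP_9e8697_nt

private theorem blk {a : ℕ} (h : chk 1 9 a = true) {x : ℕ} (h1 : a ≤ x) (h2 : x < a + 512) :
    x % 2 = 1 ∨ x % 3 = 0 ∨ run 600 x x 12 = true := by
  have h3 := chk_sound h (i := x - a) (by
    have : (2 : ℕ) ^ 9 = 512 := by norm_num
    omega)
  have h4 : a + 1 * (x - a) = x := by omega
  rwa [h4] at h3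

private theorem small_range {x : ℕ} (h1 : 46 ≤ x) (h2 : x < 6190) :
    x % 2 = 1 ∨ x % 3 = 0 ∨ run 600 x x 12 = true := by
  rcases Nat.lt_or_ge x 558 with h | h
  · exact blk chk_0 (by omega) (by omega)
  rcases Nat.lt_or_ge x 1070 with h | h
  · exact blk chk_1 (by omega) (by omega)
  rcases Nat.lt_or_ge x 1582 with h | h
  · exact blk chk_2 (by omega) (by omega)
  rcases Nat.lt_or_ge x 2094 with h | h
  · exact blk chk_3 (by omega) (by omega)
  rcases Nat.lt_or_ge x 2606 with h | h
  · exact blk chk_4 (by omega) (by omega)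
  rcases Nat.lt_or_ge x 3118 with h | h
  · exact blk chk_5 (by omega) (by omega)
  rcases Nat.lt_or_ge x 3630 with h | h
  · exact blk chk_6 (by omega) (by omega)
  rcases Nat.lt_or_ge x 4142 with h | h
  · exact blk chk_7 (by omega) (by omega)
  rcases Nat.lt_or_ge x 4654 with h | h
  · exact blk chk_8 (by omega) (by omega)
  rcases Nat.lt_or_ge x 5166 with h | h
  · exact blk chk_9 (by omega) (by omega)
  rcases Nat.lt_or_ge x 5678 with h | h
  · exact blk chk_10 (by omega) (by omega)
  exact blk chk_11 (by omega) (by omega)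

/-- `x = a + 2 i` is not the smallest element of a cycle with at most `12` local minima. -/
private theorem lane {a : ℕ} (h : simd 2048 86 a 2 = true) (ha : 6002 ≤ a) (ha' : a < 280434)
    (ha2 : a % 2 = 0) {x : ℕ} (h1 : a ≤ x) (h2 : x < a + 4096) (hx2 : x % 2 = 0)
    (hp : 0 < minimalPeriod T x) (hmin : ∀ k, x ≤ T^[k] x) (hM : minima x ≤ 12) : False := by
  obtain ⟨i, hi⟩ : ∃ i, x = a + 2 * i := ⟨(x - a) / 2, by omega⟩
  subst hi
  refine simd_false h ?_ (i := i) (by omega) (by omega) hp hmin hM
  have h3 : (a + 2 * 2048) * 3 ^ 86 ≤ 284530 * 3 ^ 86 := Nat.mul_le_mul_right _ (by omega)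
  refine h3.trans ?_
  decide +kernel

private theorem mid_range {x : ℕ} (h1 : 6002 ≤ x) (h2 : x < 280434) (hx2 : x % 2 = 0)
    (hp : 0 < minimalPeriod T x) (hmin : ∀ k, x ≤ T^[k] x) (hM : minima x ≤ 12) : False := by
  rcases Nat.lt_or_ge x 10098 with h | h
  · exact lane sm_0 (by omega) (by omega) (by omega) (by omega) (by omega) hx2 hp hmin hM
  rcases Nat.lt_or_ge x 14194 with h | h
  · exact lane sm_1 (by omega) (by omega) (by omega) (by omega) (by omega) hx2 hp hmin hM
  rcases Nat.lt_or_ge x 18290 with h | h
  · exact lane sm_2 (by omega) (by omega) (by omega) (by omega) (by omega) hx2 hp hmin hM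
  rcases Nat.lt_or_ge x 22386 with h | h
  · exact lane sm_3 (by omega) (by omega) (by omega) (by omega) (by omega) hx2 hp hmin hM
  rcases Nat.lt_or_ge x 26482 with h | h
  · exact lane sm_4 (by omega) (by omega) (by omega) (by omega) (by omega) hx2 hp hmin hM
  rcases Nat.lt_or_ge x 30578 with h | h
  · exact lane sm_5 (by omega) (by omega) (by omega) (by omega) (by omega) hx2 hp hmin hM
  rcases Nat.lt_or_ge x 34674 with h | h
  · exact lane sm_6 (by omega) (by omega) (by omega) (by omega) (by omega) hx2 hp hmin hM
  rcases Nat.lt_or_ge x 38770 with h | h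
  · exact lane sm_7 (by omega) (by omega) (by omega) (by omega) (by omega) hx2 hp hmin hM
  rcases Nat.lt_or_ge x 42866 with h | h
  · exact lane sm_8 (by omega) (by omega) (by omega) (by omega) (by omega) hx2 hp hmin hM
  rcases Nat.lt_or_ge x 46962 with h | h
  · exact lane sm_9 (by omega) (by omega) (by omega) (by omega) (by omega) hx2 hp hmin hM
  rcases Nat.lt_or_ge x 51058 with h | h
  · exact lane sm_10 (by omega) (by omega) (by omega) (by omega) (by omega) hx2 hp hmin hM
  rcases Nat.lt_or_ge x 55154 with h | h
  · exact lane sm_11 (by omega) (by omega) (by omega) (by omega) (by omega) hx2 hp hmin hM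
  rcases Nat.lt_or_ge x 59250 with h | h
  · exact lane sm_12 (by omega) (by omega) (by omega) (by omega) (by omega) hx2 hp hmin hM
  rcases Nat.lt_or_ge x 63346 with h | h
  · exact lane sm_13 (by omega) (by omega) (by omega) (by omega) (by omega) hx2 hp hmin hM
  rcases Nat.lt_or_ge x 67442 with h | h
  · exact lane sm_14 (by omega) (by omega) (by omega) (by omega) (by omega) hx2 hp hmin hM
  rcases Nat.lt_or_ge x 71538 with h | h
  · exact lane sm_15 (by omega) (by omega) (by omega) (by omega) (by omega) hx2 hp hmin hM
  rcases Nat.lt_or_ge x 75634 with h | h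
  · exact lane sm_16 (by omega) (by omega) (by omega) (by omega) (by omega) hx2 hp hmin hM
  rcases Nat.lt_or_ge x 79730 with h | h
  · exact lane sm_17 (by omega) (by omega) (by omega) (by omega) (by omega) hx2 hp hmin hM
  rcases Nat.lt_or_ge x 83826 with h | h
  · exact lane sm_18 (by omega) (by omega) (by omega) (by omega) (by omega) hx2 hp hmin hM
  rcases Nat.lt_or_ge x 87922 with h | h
  · exact lane sm_19 (by omega) (by omega) (by omega) (by omega) (by omega) hx2 hp hmin hM
  rcases Nat.lt_or_ge x 92018 with h | h
  · exact lane sm_20 (by omega) (by omega) (by omega) (by omega) (by omega) hx2 hp hmin hM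
  rcases Nat.lt_or_ge x 96114 with h | h
  · exact lane sm_21 (by omega) (by omega) (by omega) (by omega) (by omega) hx2 hp hmin hM
  rcases Nat.lt_or_ge x 100210 with h | h
  · exact lane sm_22 (by omega) (by omega) (by omega) (by omega) (by omega) hx2 hp hmin hM
  rcases Nat.lt_or_ge x 104306 with h | h
  · exact lane sm_23 (by omega) (by omega) (by omega) (by omega) (by omega) hx2 hp hmin hM
  rcases Nat.lt_or_ge x 108402 with h | h
  · exact lane sm_24 (by omega) (by omega) (by omega) (by omega) (by omega) hx2 hp hmin hM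
  rcases Nat.lt_or_ge x 112498 with h | h
  · exact lane sm_25 (by omega) (by omega) (by omega) (by omega) (by omega) hx2 hp hmin hM
  rcases Nat.lt_or_ge x 116594 with h | h
  · exact lane sm_26 (by omega) (by omega) (by omega) (by omega) (by omega) hx2 hp hmin hM
  rcases Nat.lt_or_ge x 120690 with h | h
  · exact lane sm_27 (by omega) (by omega) (by omega) (by omega) (by omega) hx2 hp hmin hM
  rcases Nat.lt_or_ge x 124786 with h | h
  · exact lane sm_28 (by omega) (by omega) (by omega) (by omega) (by omega) hx2 hp hmin hM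
  rcases Nat.lt_or_ge x 128882 with h | h
  · exact lane sm_29 (by omega) (by omega) (by omega) (by omega) (by omega) hx2 hp hmin hM
  rcases Nat.lt_or_ge x 132978 with h | h
  · exact lane sm_30 (by omega) (by omega) (by omega) (by omega) (by omega) hx2 hp hmin hM
  rcases Nat.lt_or_ge x 137074 with h | h
  · exact lane sm_31 (by omega) (by omega) (by omega) (by omega) (by omega) hx2 hp hmin hM
  rcases Nat.lt_or_ge x 141170 with h | h
  · exact lane sm_32 (by omega) (by omega) (by omega) (by omega) (by omega) hx2 hp hmin hM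
  rcases Nat.lt_or_ge x 145266 with h | h
  · exact lane sm_33 (by omega) (by omega) (by omega) (by omega) (by omega) hx2 hp hmin hM
  rcases Nat.lt_or_ge x 149362 with h | h
  · exact lane sm_34 (by omega) (by omega) (by omega) (by omega) (by omega) hx2 hp hmin hM
  rcases Nat.lt_or_ge x 153458 with h | h
  · exact lane sm_35 (by omega) (by omega) (by omega) (by omega) (by omega) hx2 hp hmin hM
  rcases Nat.lt_or_ge x 157554 with h | h
  · exact lane sm_36 (by omega) (by omega) (by omega) (by omega) (by omega) hx2 hp hmin hM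
  rcases Nat.lt_or_ge x 161650 with h | h
  · exact lane sm_37 (by omega) (by omega) (by omega) (by omega) (by omega) hx2 hp hmin hM
  rcases Nat.lt_or_ge x 165746 with h | h
  · exact lane sm_38 (by omega) (by omega) (by omega) (by omega) (by omega) hx2 hp hmin hM
  rcases Nat.lt_or_ge x 169842 with h | h
  · exact lane sm_39 (by omega) (by omega) (by omega) (by omega) (by omega) hx2 hp hmin hM
  rcases Nat.lt_or_ge x 173938 with h | h
  · exact lane sm_40 (by omega) (by omega) (by omega) (by omega) (by omega) hx2 hp hmin hM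
  rcases Nat.lt_or_ge x 178034 with h | h
  · exact lane sm_41 (by omega) (by omega) (by omega) (by omega) (by omega) hx2 hp hmin hM
  rcases Nat.lt_or_ge x 182130 with h | h
  · exact lane sm_42 (by omega) (by omega) (by omega) (by omega) (by omega) hx2 hp hmin hM
  rcases Nat.lt_or_ge x 186226 with h | h
  · exact lane sm_43 (by omega) (by omega) (by omega) (by omega) (by omega) hx2 hp hmin hM
  rcases Nat.lt_or_ge x 190322 with h | h
  · exact lane sm_44 (by omega) (by omega) (by omega) (by omega) (by omega) hx2 hp hmin hM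
  rcases Nat.lt_or_ge x 194418 with h | h
  · exact lane sm_45 (by omega) (by omega) (by omega) (by omega) (by omega) hx2 hp hmin hM
  rcases Nat.lt_or_ge x 198514 with h | h
  · exact lane sm_46 (by omega) (by omega) (by omega) (by omega) (by omega) hx2 hp hmin hM
  rcases Nat.lt_or_ge x 202610 with h | h
  · exact lane sm_47 (by omega) (by omega) (by omega) (by omega) (by omega) hx2 hp hmin hM
  rcases Nat.lt_or_ge x 206706 with h | h
  · exact lane sm_48 (by omega) (by omega) (by omega) (by omega) (by omega) hx2 hp hmin hM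
  rcases Nat.lt_or_ge x 210802 with h | h
  · exact lane sm_49 (by omega) (by omega) (by omega) (by omega) (by omega) hx2 hp hmin hM
  rcases Nat.lt_or_ge x 214898 with h | h
  · exact lane sm_50 (by omega) (by omega) (by omega) (by omega) (by omega) hx2 hp hmin hM
  rcases Nat.lt_or_ge x 218994 with h | h
  · exact lane sm_51 (by omega) (by omega) (by omega) (by omega) (by omega) hx2 hp hmin hM
  rcases Nat.lt_or_ge x 223090 with h | h
  · exact lane sm_52 (by omega) (by omega) (by omega) (by omega) (by omega) hx2 hp hmin hM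
  rcases Nat.lt_or_ge x 227186 with h | h
  · exact lane sm_53 (by omega) (by omega) (by omega) (by omega) (by omega) hx2 hp hmin hM
  rcases Nat.lt_or_ge x 231282 with h | h
  · exact lane sm_54 (by omega) (by omega) (by omega) (by omega) (by omega) hx2 hp hmin hM
  rcases Nat.lt_or_ge x 235378 with h | h
  · exact lane sm_55 (by omega) (by omega) (by omega) (by omega) (by omega) hx2 hp hmin hM
  rcases Nat.lt_or_ge x 239474 with h | h
  · exact lane sm_56 (by omega) (by omega) (by omega) (by omega) (by omega) hx2 hp hmin hM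
  rcases Nat.lt_or_ge x 243570 with h | h
  · exact lane sm_57 (by omega) (by omega) (by omega) (by omega) (by omega) hx2 hp hmin hM
  rcases Nat.lt_or_ge x 247666 with h | h
  · exact lane sm_58 (by omega) (by omega) (by omega) (by omega) (by omega) hx2 hp hmin hM
  rcases Nat.lt_or_ge x 251762 with h | h
  · exact lane sm_59 (by omega) (by omega) (by omega) (by omega) (by omega) hx2 hp hmin hM
  rcases Nat.lt_or_ge x 255858 with h | h
  · exact lane sm_60 (by omega) (by omega) (by omega) (by omega) (by omega) hx2 hp hmin hM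
  rcases Nat.lt_or_ge x 259954 with h | h
  · exact lane sm_61 (by omega) (by omega) (by omega) (by omega) (by omega) hx2 hp hmin hM
  rcases Nat.lt_or_ge x 264050 with h | h
  · exact lane sm_62 (by omega) (by omega) (by omega) (by omega) (by omega) hx2 hp hmin hM
  rcases Nat.lt_or_ge x 268146 with h | h
  · exact lane sm_63 (by omega) (by omega) (by omega) (by omega) (by omega) hx2 hp hmin hM
  rcases Nat.lt_or_ge x 272242 with h | h
  · exact lane sm_64 (by omega) (by omega) (by omega) (by omega) (by omega) hx2 hp hmin hM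
  rcases Nat.lt_or_ge x 276338 with h | h
  · exact lane sm_65 (by omega) (by omega) (by omega) (by omega) (by omega) hx2 hp hmin hM
  exact lane sm_66 (by omega) (by omega) (by omega) (by omega) (by omega) hx2 hp hmin hM

private theorem tiny : ∀ x < 46, 2 ≤ x → x ≠ 2 → x ≠ 4 → x ≠ 44 → run 600 x x 12 = true := by
  decide +kernel

/-- Proof: `stage_three`, `stage_four`, `chk_sound` for `chk_0, ..., chk_11` (`46 ≤ x < 6190`), `simd_false` for
`6002 ≤ x < 280434` and for the multiples of `256` up to `799232`, `run_eq_false`, `min_mod`; the numbers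
`2 ≤ x < 46` one by one (`run 600 x x 12 = true` by `decide +kernel`). -/
theorem min_mem {x : ℕ} (hx : 2 ≤ x) (hp : 0 < minimalPeriod T x) (hmin : ∀ k, x ≤ T^[k] x)
    (hM : minima x ≤ 12) : x = 2 ∨ x = 4 ∨ x = 44 := by
  have h0 := run_eq_false hx hp hmin hM 600
  obtain ⟨hm1, hm2⟩ := min_mod hx hp hmin
  by_contra hne
  push Not at hne
  have hrun : ¬ run 600 x x 12 = true := by rw [h0]; exact Bool.false_ne_true
  rcases Nat.lt_or_ge x 46 with h | h
  · exact hrun (tiny x h hx hne.1 hne.2.1 hne.2.2)
  rcases Nat.lt_or_ge x 6190 with h' | h'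
  · rcases small_range h h' with h3 | h3 | h3
    · omega
    · exact hm2 h3
    · exact hrun h3
  rcases Nat.lt_or_ge x 280434 with h'' | h''
  · exact mid_range (by omega) h'' hm1 hp hmin hM
  · have h3 := stage_three hx hp hmin hM
    have h4 : x % 256 = 0 := by
      rcases stage_four hx hp hmin hM with h5 | h5
      · omega
      · exact h5
    rcases Nat.lt_or_ge x 537088 with h5 | h5
    · obtain ⟨i, hi⟩ : ∃ i, x = 274944 + 256 * i := ⟨(x - 274944) / 256, by omega⟩
      subst hi
      exact simd_false sm_mul0 (by decide +kernel) (i := i) (by omega) (by omega) hp hmin hM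
    · obtain ⟨i, hi⟩ : ∃ i, x = 537088 + 256 * i := ⟨(x - 537088) / 256, by omega⟩
      subst hi
      exact simd_false sm_mul1 (by decide +kernel) (i := i) (by omega) (by omega) hp hmin hM

/-- The elements of the four known cycles. -/
def known : Finset ℕ := {1, 2, 3, 4, 6, 9, 7, 5, 44, 66, 99, 74, 111, 83, 62, 93, 70, 105, 79, 59}

private theorem known_T : ∀ y ∈ known, T y ∈ known := by
  decide

private theorem known_iterate {y : ℕ} (hy : y ∈ known) (k : ℕ) : T^[k] y ∈ known := by
  induction k with
  | zero => exact hy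
  | succ k ih => rw [iterate_succ_apply']; exact known_T _ ih

/-- Proof: let `m = T^[k] x` be the smallest element of the cycle (`exists_min`). Then `minima m =
minima x` (`minima_iterate`), so `m = 1` or `m ∈ {2, 4, 44}` (`min_mem`), and `x` is an iterate of `m`
(`x = T^[p * k] x = T^[p * k - k] m`, `p ≥ 1`), the iterates of `m ∈ known` are in `known`
(`T` maps `known` to itself: `decide`). -/
theorem mem_known {x : ℕ} (hx : 0 < x) (hp : 0 < minimalPeriod T x) (hM : minima x ≤ 12) :
    x ∈ known := by
  obtain ⟨k, hk⟩ := exists_min hx hp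
  have hm0 : 0 < T^[k] x := iterate_pos hx k
  have hmM : minima (T^[k] x) ≤ 12 := by rw [minima_iterate hp k]; exact hM
  have hper : minimalPeriod T (T^[k] x) = minimalPeriod T x :=
    minimalPeriod_apply_iterate (minimalPeriod_pos_iff_mem_periodicPts.1 hp) k
  have hmem : T^[k] x ∈ known := by
    rcases Nat.lt_or_ge (T^[k] x) 2 with h | h
    · have h1 : T^[k] x = 1 := by omega
      rw [h1]
      decide
    · rcases min_mem h (by rw [hper]; exact hp) hk hmM with h1 | h1 | h1 <;> rw [h1] <;> decide
  have h1 : IsPeriodicPt T (k * minimalPeriod T x) x :=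
    (isPeriodicPt_minimalPeriod T x).const_mul k
  have h2 : k ≤ k * minimalPeriod T x := Nat.le_mul_of_pos_right k hp
  have h3 : T^[k * minimalPeriod T x - k] (T^[k] x) = x := by
    rw [← iterate_add_apply, Nat.sub_add_cancel h2]
    exact h1
  rw [← h3]
  exact known_iterate hmem _

end Pool.Agent.MP_9e8697_nt
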