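import Pool.Agent.Lib.MP_9e8697_nt.Defs

/-!
# Spacing
-/

namespace Pool.Agent.MP_9e8697_nt

/-- Proof: `|x + y - (round x + round y)|`, `round_le`. -/
theorem dist3_sub_le {p q : ℕ} (h : p ≤ q) : dist3 (q - p) ≤ dist3 p + dist3 q := by
  unfold dist3
  have h1 := round_le (((q - p : ℕ) : ℝ) * Real.logb 2 3)
    (round ((q : ℝ) * Real.logb 2 3) - round ((p : ℝ) * Real.logb 2 3))
  refine h1.trans ?_
  have h2 : ((q - p : ℕ) : ℝ) * Real.logb 2 3 -
      ((round ((q : ℝ) * Real.logb 2 3) - round ((p : ℝ) * Real.logb 2 3) : ℤ) : ℝ) =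
      ((q : ℝ) * Real.logb 2 3 - round ((q : ℝ) * Real.logb 2 3)) -
        ((p : ℝ) * Real.logb 2 3 - round ((p : ℝ) * Real.logb 2 3)) := by
    rw [Nat.cast_sub h]
    push_cast
    ring
  rw [h2]
  refine (abs_sub _ _).trans ?_
  rw [add_comm]

/-- Proof: every block `{k D + 1, ..., k D + D}`, `k ≤ N / D`, contains at most one `p ∈ L` with
`dist3 p < η`: two of them differ by some `1 ≤ d < D` and `dist3 d < 2 η`
(`dist3_sub_le`). So `L` has at most `N / D + 1` elements with `dist3 p < η`, and at most
`(∑ dist3 p) / η` elements with `dist3 p ≥ η`. -/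
theorem card_le_of_spacing {L : Finset ℕ} {N D : ℕ} {η : ℝ} (hL : L ⊆ Finset.Icc 1 N)
    (hD : 1 ≤ D) (hη : 0 < η) (hs : ∀ d, 1 ≤ d → d ≤ D → 2 * η ≤ dist3 d) :
    (L.card : ℝ) ≤ (N : ℝ) / D + 1 + (∑ p ∈ L, dist3 p) / η := by
  have hdn : ∀ p, 0 ≤ dist3 p := fun p => abs_nonneg _
  have hD0 : (0 : ℝ) < D := by exact_mod_cast hD
  have hsplit := Finset.card_filter_add_card_filter_not (s := L) (fun p => dist3 p < η)
  have h1 : (L.filter (fun p => dist3 p < η)).card ≤ N / D + 1 := by
    have h2 : (L.filter (fun p => dist3 p < η)).card ≤ (Finset.range (N / D + 1)).card := by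
      refine Finset.card_le_card_of_injOn (fun p => (p - 1) / D) ?_ ?_
      · intro p hp
        simp only [Finset.coe_filter, Set.mem_setOf_eq] at hp
        have h3 := Finset.mem_Icc.mp (hL hp.1)
        simp only [Finset.coe_range, Set.mem_Iio]
        have : (p - 1) / D ≤ N / D := Nat.div_le_div_right (by omega)
        omega
      · have key : ∀ p q : ℕ, p ∈ L → q ∈ L → dist3 p < η → dist3 q < η → p < q →
            (p - 1) / D = (q - 1) / D → False := by
          intro p q hp hq hp' hq' hpq h
          have h3 := Finset.mem_Icc.mp (hL hp)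
          have h4 := Finset.mem_Icc.mp (hL hq)
          have h5 : q - p < D := by
            have e1 := Nat.div_add_mod (p - 1) D
            have e2 := Nat.div_add_mod (q - 1) D
            have e3 := Nat.mod_lt (q - 1) (show D > 0 by omega)
            rw [h] at e1
            omega
          have h6 := hs (q - p) (by omega) h5.le
          have h7 := dist3_sub_le hpq.le
          linarith
        intro p hp q hq h
        simp only [Finset.coe_filter, Set.mem_setOf_eq] at hp hq
        simp only at h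
        rcases lt_trichotomy p q with hlt | heq | hgt
        · exact (key p q hp.1 hq.1 hp.2 hq.2 hlt h).elim
        · exact heq
        · exact (key q p hq.1 hp.1 hq.2 hp.2 hgt h.symm).elim
    rwa [Finset.card_range] at h2
  have h2 : ((L.filter (fun p => ¬ dist3 p < η)).card : ℝ) ≤ (∑ p ∈ L, dist3 p) / η := by
    rw [le_div_iff₀ hη]
    have h3 : ((L.filter (fun p => ¬ dist3 p < η)).card : ℝ) * η ≤
        ∑ p ∈ L.filter (fun p => ¬ dist3 p < η), dist3 p := by
      rw [← nsmul_eq_mul]
      refine Finset.card_nsmul_le_sum _ _ _ ?_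
      intro p hp
      exact not_lt.mp (Finset.mem_filter.mp hp).2
    refine h3.trans ?_
    exact Finset.sum_le_sum_of_subset_of_nonneg (Finset.filter_subset _ _) fun p _ _ => hdn p
  have h3 : ((N / D : ℕ) : ℝ) ≤ (N : ℝ) / D := Nat.cast_div_le
  have h4 : ((L.filter (fun p => dist3 p < η)).card : ℝ) ≤ (N : ℝ) / D + 1 := by
    have : ((L.filter (fun p => dist3 p < η)).card : ℝ) ≤ ((N / D + 1 : ℕ) : ℝ) := by
      exact_mod_cast h1
    push_cast at this
    linarith
  have h5 : (L.card : ℝ) = ((L.filter (fun p => dist3 p < η)).card : ℝ) +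
      ((L.filter (fun p => ¬ dist3 p < η)).card : ℝ) := by
    rw [← hsplit]
    push_cast
    ring
  rw [h5]
  linarith

end Pool.Agent.MP_9e8697_nt
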