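import Pool.Agent.Lib.MP_9e8697_nt.SumAll
import Pool.Agent.Lib.MP_9e8697_nt.Spacing

/-!
# The number of lengths of cycles
-/

open Function

namespace Pool.Agent.MP_9e8697_nt

/-- Analysis. Proof: `D = ⌊N ^ (1/33)⌋ ≥ 1`, `η = 1 / (2 * 10^27 * D^31)`: then `N / D ≤ 2 N^(32/33)`,
`1/η ≤ 2 * 10^27 * N^(31/33)` and `log N ≤ 33 N^(1/33)` (`Real.log_le_rpow_div`), so
`N / D + 1 + K log N / η ≤ K' N^(32/33) ≤ K' N^0.97` as `32/33 ≤ 0.97`. -/
theorem exists_const (K : ℝ) : ∃ K' : ℝ, ∀ N : ℕ, 1 ≤ N → ∃ D : ℕ, 1 ≤ D ∧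
    (N : ℝ) / D + 1 + K * Real.log N / (1 / (2 * 10 ^ 27 * (D : ℝ) ^ 31)) ≤
      K' * (N : ℝ) ^ (0.97 : ℝ) := by
  refine ⟨3 + 66 * 10 ^ 27 * |K|, ?_⟩
  intro N hN
  have hN0 : (1 : ℝ) ≤ N := by exact_mod_cast hN
  have hNpos : (0 : ℝ) < N := by linarith
  have hN33 : (1 : ℝ) ≤ (N : ℝ) ^ (1 / 33 : ℝ) := Real.one_le_rpow hN0 (by norm_num)
  have hD1 : 1 ≤ ⌊(N : ℝ) ^ (1 / 33 : ℝ)⌋₊ :=
    Nat.le_floor (by exact_mod_cast hN33)
  refine ⟨⌊(N : ℝ) ^ (1 / 33 : ℝ)⌋₊, hD1, ?_⟩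
  obtain ⟨D, hD⟩ : ∃ D, D = ⌊(N : ℝ) ^ (1 / 33 : ℝ)⌋₊ := ⟨_, rfl⟩
  rw [← hD]
  rw [← hD] at hD1
  have hDpos : (1 : ℝ) ≤ D := by exact_mod_cast hD1
  have hDle : (D : ℝ) ≤ (N : ℝ) ^ (1 / 33 : ℝ) := by
    rw [hD]
    exact Nat.floor_le (by positivity)
  have hDge : (N : ℝ) ^ (1 / 33 : ℝ) ≤ 2 * D := by
    have h1 := Nat.lt_floor_add_one ((N : ℝ) ^ (1 / 33 : ℝ))
    rw [← hD] at h1
    linarith
  have e1 : (N : ℝ) ^ (1 / 33 : ℝ) * (N : ℝ) ^ (32 / 33 : ℝ) = N := by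
    rw [← Real.rpow_add hNpos]
    norm_num
  have h1 : (N : ℝ) / D ≤ 2 * (N : ℝ) ^ (32 / 33 : ℝ) := by
    rw [div_le_iff₀ (by linarith)]
    have h2 : 0 ≤ (N : ℝ) ^ (32 / 33 : ℝ) := by positivity
    calc (N : ℝ) = (N : ℝ) ^ (1 / 33 : ℝ) * (N : ℝ) ^ (32 / 33 : ℝ) := e1.symm
      _ ≤ (2 * D) * (N : ℝ) ^ (32 / 33 : ℝ) := mul_le_mul_of_nonneg_right hDge h2
      _ = 2 * (N : ℝ) ^ (32 / 33 : ℝ) * D := by ring
  have h2 : (D : ℝ) ^ 31 ≤ (N : ℝ) ^ (31 / 33 : ℝ) := by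
    have h3 : ((N : ℝ) ^ (1 / 33 : ℝ)) ^ (31 : ℕ) = (N : ℝ) ^ (31 / 33 : ℝ) := by
      rw [← Real.rpow_natCast, ← Real.rpow_mul hNpos.le]
      norm_num
    rw [← h3]
    exact pow_le_pow_left₀ (by linarith) hDle 31
  have h3 : Real.log N ≤ 33 * (N : ℝ) ^ (1 / 33 : ℝ) := by
    have h4 := Real.log_le_rpow_div hNpos.le (show (0 : ℝ) < 1 / 33 by norm_num)
    refine h4.trans (le_of_eq ?_)
    ring
  have hlog0 : 0 ≤ Real.log N := Real.log_nonneg hN0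
  have e2 : (N : ℝ) ^ (1 / 33 : ℝ) * (N : ℝ) ^ (31 / 33 : ℝ) = (N : ℝ) ^ (32 / 33 : ℝ) := by
    rw [← Real.rpow_add hNpos]
    norm_num
  have h4 : Real.log N * (D : ℝ) ^ 31 ≤ 33 * (N : ℝ) ^ (32 / 33 : ℝ) := by
    calc Real.log N * (D : ℝ) ^ 31 ≤ (33 * (N : ℝ) ^ (1 / 33 : ℝ)) * (N : ℝ) ^ (31 / 33 : ℝ) :=
          mul_le_mul h3 h2 (by positivity) (by positivity)
      _ = 33 * ((N : ℝ) ^ (1 / 33 : ℝ) * (N : ℝ) ^ (31 / 33 : ℝ)) := by ring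
      _ = 33 * (N : ℝ) ^ (32 / 33 : ℝ) := by rw [e2]
  have h5 : K * Real.log N / (1 / (2 * 10 ^ 27 * (D : ℝ) ^ 31)) =
      2 * 10 ^ 27 * K * (Real.log N * (D : ℝ) ^ 31) := by
    rw [div_div_eq_mul_div, div_one]
    ring
  rw [h5]
  have h6 : 2 * 10 ^ 27 * K * (Real.log N * (D : ℝ) ^ 31) ≤
      66 * 10 ^ 27 * |K| * (N : ℝ) ^ (32 / 33 : ℝ) := by
    have h7 : 0 ≤ Real.log N * (D : ℝ) ^ 31 := by positivity
    calc 2 * 10 ^ 27 * K * (Real.log N * (D : ℝ) ^ 31) ≤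
        2 * 10 ^ 27 * |K| * (Real.log N * (D : ℝ) ^ 31) := by
          refine mul_le_mul_of_nonneg_right ?_ h7
          exact mul_le_mul_of_nonneg_left (le_abs_self K) (by positivity)
      _ ≤ 2 * 10 ^ 27 * |K| * (33 * (N : ℝ) ^ (32 / 33 : ℝ)) := by
          refine mul_le_mul_of_nonneg_left h4 (by positivity)
      _ = 66 * 10 ^ 27 * |K| * (N : ℝ) ^ (32 / 33 : ℝ) := by ring
  have h7 : (N : ℝ) ^ (32 / 33 : ℝ) ≤ (N : ℝ) ^ (0.97 : ℝ) :=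
    Real.rpow_le_rpow_of_exponent_le hN0 (by norm_num)
  have h8 : (1 : ℝ) ≤ (N : ℝ) ^ (32 / 33 : ℝ) := Real.one_le_rpow hN0 (by norm_num)
  calc (N : ℝ) / D + 1 + 2 * 10 ^ 27 * K * (Real.log N * (D : ℝ) ^ 31) ≤
      2 * (N : ℝ) ^ (32 / 33 : ℝ) + (N : ℝ) ^ (32 / 33 : ℝ) +
        66 * 10 ^ 27 * |K| * (N : ℝ) ^ (32 / 33 : ℝ) := add_le_add (add_le_add h1 h8) h6
    _ = (3 + 66 * 10 ^ 27 * |K|) * (N : ℝ) ^ (32 / 33 : ℝ) := by ring
    _ ≤ (3 + 66 * 10 ^ 27 * |K|) * (N : ℝ) ^ (0.97 : ℝ) :=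
        mul_le_mul_of_nonneg_left h7 (by positivity)

open Classical in
/-- Proof: let `L` be the set of the lengths `p ≤ N` of cycles, choose for every `p ∈ L` some `x_p > 0`
with `minimalPeriod T x_p = p`, and let `S = {x_p}`. `Reps N S` holds: if `T^[k] x_p = x_q` then both
have the same period (`Function.minimalPeriod_apply_iterate`), so `p = q`. Apply `exists_sum_le`,
`card_le_of_spacing` with `η = 1 / (2 * 10^27 * D^31)` (`le_dist3`) and `exists_const`. (For `N = 1`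
there is at most one length.) -/
theorem exists_card_le : ∃ K : ℝ, ∀ N : ℕ, 1 ≤ N →
    (((Finset.Icc 1 N).filter (fun p => ∃ x, 0 < x ∧ minimalPeriod T x = p)).card : ℝ) ≤
      K * (N : ℝ) ^ (0.97 : ℝ) := by
  obtain ⟨K, hK⟩ := exists_sum_le
  obtain ⟨K', hK'⟩ := exists_const K
  refine ⟨max K' 1, ?_⟩
  intro N hN
  have hN0 : (1 : ℝ) ≤ N := by exact_mod_cast hN
  have hpow : (1 : ℝ) ≤ (N : ℝ) ^ (0.97 : ℝ) := Real.one_le_rpow hN0 (by norm_num)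
  obtain ⟨L, hLdef⟩ : ∃ L, L = (Finset.Icc 1 N).filter
    (fun p => ∃ x, 0 < x ∧ minimalPeriod T x = p) := ⟨_, rfl⟩
  rw [← hLdef]
  have hLmem : ∀ p, p ∈ L ↔ (1 ≤ p ∧ p ≤ N) ∧ ∃ x, 0 < x ∧ minimalPeriod T x = p := by
    intro p
    rw [hLdef, Finset.mem_filter, Finset.mem_Icc]
  by_cases h2 : 2 ≤ N
  · obtain ⟨D, hD, hbound⟩ := hK' N hN
    have hDpos : (1 : ℝ) ≤ D := by exact_mod_cast hD
    have hch : ∀ p : ℕ, ∃ x : ℕ, p ∈ L → 0 < x ∧ minimalPeriod T x = p := by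
      intro p
      by_cases hp : p ∈ L
      · obtain ⟨x, hx⟩ := ((hLmem p).mp hp).2
        exact ⟨x, fun _ => hx⟩
      · exact ⟨0, fun h => absurd h hp⟩
    choose f hf using hch
    have hinj : Set.InjOn f (L : Set ℕ) := by
      intro p hp q hq h
      have h3 := (hf p hp).2
      have h4 := (hf q hq).2
      rw [h] at h3
      rw [← h3, h4]
    have hReps : Reps N (L.image f) := by
      refine ⟨?_, ?_, ?_, ?_⟩
      · intro x hx
        obtain ⟨p, hp, rfl⟩ := Finset.mem_image.mp hx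
        exact (hf p hp).1
      · intro x hx
        obtain ⟨p, hp, rfl⟩ := Finset.mem_image.mp hx
        rw [(hf p hp).2]
        exact ((hLmem p).mp hp).1.1
      · intro x hx
        obtain ⟨p, hp, rfl⟩ := Finset.mem_image.mp hx
        rw [(hf p hp).2]
        exact ((hLmem p).mp hp).1.2
      · intro x hx y hy k hk
        obtain ⟨p, hp, rfl⟩ := Finset.mem_image.mp hx
        obtain ⟨q, hq, rfl⟩ := Finset.mem_image.mp hy
        have h3 : minimalPeriod T (T^[k] (f p)) = minimalPeriod T (f p) := by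
          refine minimalPeriod_apply_iterate ?_ k
          rw [← minimalPeriod_pos_iff_mem_periodicPts, (hf p hp).2]
          exact ((hLmem p).mp hp).1.1
        rw [hk, (hf p hp).2, (hf q hq).2] at h3
        rw [h3]
    have hsum := hK N h2 _ hReps
    rw [Finset.sum_image hinj] at hsum
    have hsum' : ∑ p ∈ L, dist3 p ≤ K * Real.log N := by
      refine le_trans (le_of_eq ?_) hsum
      refine Finset.sum_congr rfl fun p hp => ?_
      rw [(hf p hp).2]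
    have hη : (0 : ℝ) < 1 / (2 * 10 ^ 27 * (D : ℝ) ^ 31) := by positivity
    have hcard := card_le_of_spacing (L := L) (N := N) (D := D)
      (η := 1 / (2 * 10 ^ 27 * (D : ℝ) ^ 31)) (fun p hp => by
        rw [Finset.mem_Icc]
        exact ((hLmem p).mp hp).1) hD hη (fun d hd1 hd2 => by
        refine le_trans ?_ (le_dist3 hd1)
        have hd0 : (1 : ℝ) ≤ d := by exact_mod_cast hd1
        have hdD : (d : ℝ) ≤ D := by exact_mod_cast hd2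
        have h3 : (d : ℝ) ^ 31 ≤ (D : ℝ) ^ 31 := pow_le_pow_left₀ (by linarith) hdD 31
        rw [div_div, ← mul_div_assoc, mul_one, div_le_div_iff₀ (by positivity) (by positivity)]
        nlinarith)
    have h5 : (∑ p ∈ L, dist3 p) / (1 / (2 * 10 ^ 27 * (D : ℝ) ^ 31)) ≤
        K * Real.log N / (1 / (2 * 10 ^ 27 * (D : ℝ) ^ 31)) :=
      div_le_div_of_nonneg_right hsum' hη.le
    have h6 : (L.card : ℝ) ≤ K' * (N : ℝ) ^ (0.97 : ℝ) := by linarith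
    refine h6.trans ?_
    exact mul_le_mul_of_nonneg_right (le_max_left _ _) (by positivity)
  · have hN1 : N = 1 := by omega
    have h3 : L.card ≤ 1 := by
      rw [hLdef, hN1]
      refine (Finset.card_filter_le _ _).trans ?_
      simp
    have h4 : (L.card : ℝ) ≤ 1 := by exact_mod_cast h3
    calc (L.card : ℝ) ≤ 1 * 1 := by linarith
      _ ≤ max K' 1 * (N : ℝ) ^ (0.97 : ℝ) :=
        mul_le_mul (le_max_right _ _) hpow (by norm_num) (by positivity)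

end Pool.Agent.MP_9e8697_nt
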