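import Pool.Agent.Lib.MP_9e8697_nt.Mg.G003
import Pool.Agent.Lib.MP_9e8697_nt.Mg.G002

/-!
# Few local minima: the general bound
-/

open Function

namespace Pool.Agent.MP_9e8697_nt

/-- Proof: replace `x` by the smallest element `T^[k] x` of its cycle (`exists_min`,
`minima_iterate`, `Function.minimalPeriod_apply_iterate`). If it is `1` then the period is `1`. Otherwise
it is `≥ 2`, `minima ≥ 1` (as in `sum_log_le`: or because `Lam ≠ 0` by `measure` and
`abs_Lam_le_minima`), and `length_le`, `min_le`, `exists_const_M` apply. -/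
theorem exists_length_le : ∃ K : ℝ, ∀ x : ℕ, 0 < x → 0 < minimalPeriod T x →
    (minimalPeriod T x : ℝ) ≤ K * (minima x + 1) * (Real.log 3 / Real.log 2) ^ minima x := by
  obtain ⟨K, hK⟩ := exists_const_M
  have hθ : 1 ≤ Real.log 3 / Real.log 2 := by
    rw [one_le_div (Real.log_pos (by norm_num))]
    exact Real.log_le_log (by norm_num) (by norm_num)
  refine ⟨max K 1, fun x hx hp => ?_⟩
  have hθM : 1 ≤ (Real.log 3 / Real.log 2) ^ minima x := one_le_pow₀ hθ
  have hθ0 : 0 ≤ (Real.log 3 / Real.log 2) ^ minima x := by linarith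
  have hM1 : (1 : ℝ) ≤ (minima x : ℝ) + 1 := by
    have : (0 : ℝ) ≤ minima x := Nat.cast_nonneg _
    linarith
  obtain ⟨k, hk⟩ := exists_min hx hp
  obtain ⟨y, hy⟩ : ∃ y, y = T^[k] x := ⟨_, rfl⟩
  have hperiodic : x ∈ periodicPts T := minimalPeriod_pos_iff_mem_periodicPts.1 hp
  have hpy : minimalPeriod T y = minimalPeriod T x := by
    rw [hy]
    exact minimalPeriod_apply_iterate hperiodic k
  have hmy : minima y = minima x := by
    rw [hy]
    exact minima_iterate hp k
  have hy0 : 0 < y := by
    rw [hy]
    exact iterate_pos hx k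
  rw [← hy] at hk
  rcases Nat.lt_or_ge y 2 with h2 | h2
  · have hy1 : y = 1 := by omega
    have hp1 : minimalPeriod T x = 1 := by
      rw [← hpy, hy1]
      exact minimalPeriod_eq_one_iff_isFixedPt.2 T_one
    rw [hp1, Nat.cast_one]
    calc (1 : ℝ) = 1 * 1 * 1 := by norm_num
      _ ≤ max K 1 * (minima x + 1) * (Real.log 3 / Real.log 2) ^ minima x := by
          refine mul_le_mul (mul_le_mul (le_max_right _ _) hM1 zero_le_one ?_) hθM zero_le_one ?_
          · exact le_trans zero_le_one (le_max_right _ _)
          · exact mul_nonneg (le_trans zero_le_one (le_max_right _ _)) (by linarith)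
  · have hpy0 : 0 < minimalPeriod T y := by rw [hpy]; exact hp
    have hLam := abs_Lam_le_minima h2 hpy0 hk
    have hM : 1 ≤ minima y := by
      by_contra h0
      have h1 : minima y = 0 := by omega
      rw [h1, Nat.cast_zero, zero_div] at hLam
      have h3 := measure (minimalPeriod T y)
        (minimalPeriod T y + odds y (minimalPeriod T y)) hpy0
      have h4 : (0 : ℝ) < 1 / 10 ^ 27 / (minimalPeriod T y : ℝ) ^ 31 := by
        have : (0 : ℝ) < minimalPeriod T y := by exact_mod_cast hpy0
        positivity
      unfold Lam at hLam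
      push_cast at h3
      linarith
    have hlen := length_le h2 hpy0 hk
    have hmin := min_le h2 hpy0 hk
    have hy2 : (2 : ℝ) ≤ y := by exact_mod_cast h2
    have hfin := hK (minimalPeriod T y) (minima y) y hpy0 hM h2 ?_ hmin
    · rw [hpy, hmy] at hfin
      refine hfin.trans ?_
      refine mul_le_mul_of_nonneg_right ?_ hθ0
      exact mul_le_mul_of_nonneg_right (le_max_left _ _) (by linarith)
    · refine hlen.trans ?_
      have h5 : (minima y : ℝ) / ((y : ℝ) - 1) ≤ minima y :=
        div_le_self (Nat.cast_nonneg _) (by linarith)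
      linarith

end Pool.Agent.MP_9e8697_nt
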