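import Pool.Agent.Lib.MP_9e8697_nt.Mg.G011
import Pool.Agent.Lib.MP_9e8697_nt.Mg.G010

/-!
# The sum over all cycles
-/

open Function

namespace Pool.Agent.MP_9e8697_nt

/-- Proof: `round_le`: `|x - round x| ≤ |x - m|` for `m = p + o`;
`Real.logb 2 3 = log 3 / log 2`. -/
theorem dist3_le (p o : ℕ) : dist3 p ≤ |Lam p o| / Real.log 2 := by
  have hl : (0 : ℝ) < Real.log 2 := Real.log_pos (by norm_num)
  have h1 := round_le ((p : ℝ) * Real.logb 2 3) ((p : ℤ) + (o : ℤ))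
  have h2 : (p : ℝ) * Real.logb 2 3 - (((p : ℤ) + (o : ℤ) : ℤ) : ℝ) = Lam p o / Real.log 2 := by
    unfold Lam Real.logb
    push_cast
    field_simp
  unfold dist3
  rw [h2, abs_div, abs_of_pos hl] at h1
  exact h1

/-- Proof: `round` of `p log₂ 3` is a natural number `b`, and
`dist3 p = |p log 3 - b log 2| / log 2 ≥ |p log 3 - b log 2|`; now `measure`. -/
theorem le_dist3 {p : ℕ} (hp : 1 ≤ p) : 1 / 10 ^ 27 / (p : ℝ) ^ 31 ≤ dist3 p := by
  have hl : (0 : ℝ) < Real.log 2 := Real.log_pos (by norm_num)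
  have hl1 : Real.log 2 ≤ 1 := by
    have := Real.log_two_lt_d9
    linarith
  have h3 : (0 : ℝ) ≤ (p : ℝ) * Real.logb 2 3 := by
    refine mul_nonneg (Nat.cast_nonneg p) ?_
    exact Real.logb_nonneg (by norm_num) (by norm_num)
  have h4 : (0 : ℤ) ≤ round ((p : ℝ) * Real.logb 2 3) := by
    rw [round_eq]
    exact Int.floor_nonneg.mpr (by linarith)
  obtain ⟨b, hb⟩ := Int.eq_ofNat_of_zero_le h4
  unfold dist3
  rw [hb]
  have h5 : (p : ℝ) * Real.logb 2 3 - ((b : ℤ) : ℝ) =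
      ((p : ℝ) * Real.log 3 - b * Real.log 2) / Real.log 2 := by
    unfold Real.logb
    push_cast
    field_simp
  rw [h5, abs_div, abs_of_pos hl]
  refine (measure p b hp).trans ?_
  rw [le_div_iff₀ hl]
  exact mul_le_of_le_one_right (abs_nonneg _) hl1

/-- Proof: `Reps.sum_abs_Lam_le` with `Y = N ^ 33`, `Reps.card_le` with `κ = 31`, `c = 10^(-27)`
(`S.card * N ≤ 10^27 N^33`), and `dist3_le`: the sum is
`≤ ((1 + 33 log N) / 2 + 10^27) / log 2 ≤ K log N`, as `log N ≥ log 2`. -/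
theorem exists_sum_le : ∃ K : ℝ, ∀ N : ℕ, 2 ≤ N → ∀ S : Finset ℕ, Reps N S →
    ∑ x ∈ S, dist3 (minimalPeriod T x) ≤ K * Real.log N := by
  refine ⟨10 ^ 27 + 35, ?_⟩
  intro N hN S hS
  have hl : (1 / 2 : ℝ) < Real.log 2 := by
    have := Real.log_two_gt_d9
    linarith
  have hN0 : (2 : ℝ) ≤ N := by exact_mod_cast hN
  have hlogN : Real.log 2 ≤ Real.log N := Real.log_le_log (by norm_num) hN0
  have h1 := hS.sum_abs_Lam_le (Y := N ^ 33) (Nat.one_le_pow _ _ (by omega))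
  have h2 := hS.card_le (c := 1 / 10 ^ 27) (by positivity) (κ := 31) measure
  have hNpos : (0 : ℝ) < (N : ℝ) := by linarith
  have h3 : (S.card : ℝ) * N / (2 * ((N ^ 33 : ℕ) : ℝ)) ≤ 10 ^ 27 / 4 := by
    push_cast
    rw [div_le_iff₀ (by positivity)]
    have h4 : (N : ℝ) ^ (31 + 1) / (2 * (1 / 10 ^ 27)) * N = 10 ^ 27 / 4 * (2 * (N : ℝ) ^ 33) := by
      field_simp
      ring
    calc (S.card : ℝ) * N ≤ (N : ℝ) ^ (31 + 1) / (2 * (1 / 10 ^ 27)) * N :=
          mul_le_mul_of_nonneg_right h2 hNpos.le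
      _ = 10 ^ 27 / 4 * (2 * (N : ℝ) ^ 33) := h4
  have h5 : Real.log ((N ^ 33 : ℕ) : ℝ) = 33 * Real.log N := by
    push_cast
    rw [Real.log_pow]
    norm_num
  rw [h5] at h1
  have h6 : ∑ x ∈ S, dist3 (minimalPeriod T x) ≤
      (∑ x ∈ S, |Lam (minimalPeriod T x) (odds x (minimalPeriod T x))|) / Real.log 2 := by
    rw [Finset.sum_div]
    exact Finset.sum_le_sum fun x _ => dist3_le _ _
  refine h6.trans ?_
  rw [div_le_iff₀ (by linarith)]
  have h7 : (1 / 2 : ℝ) ≤ Real.log N := by linarith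
  have h8 : ∑ x ∈ S, |Lam (minimalPeriod T x) (odds x (minimalPeriod T x))| ≤
      (1 + 33 * Real.log N) / 2 + 10 ^ 27 / 4 := by linarith
  refine h8.trans ?_
  have h9 : (10 ^ 27 + 35) * Real.log N * (1 / 2) ≤ (10 ^ 27 + 35) * Real.log N * Real.log 2 := by
    refine mul_le_mul_of_nonneg_left hl.le ?_
    positivity
  refine le_trans ?_ h9
  nlinarith

end Pool.Agent.MP_9e8697_nt
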